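import Pool.Agent.MP_b00c97_gt.Core

open Topology Filter Set

namespace Pool.Agent.MP_b00c97_gt

universe u v

variable {G : Type u} [Group G] [TopologicalSpace G] [IsTopologicalGroup G] {U : ℕ → Set G}
variable {X : Type v} [MetricSpace X] {f : X → G}

omit [IsTopologicalGroup G] in
theorem Sys.preimage_mem {X : Type*} [TopologicalSpace X] (hU : Sys U) (n : ℕ) {h : X → G}
    (hh : Continuous h) {x₀ : X} (h1 : h x₀ = 1) : {x | h x ∈ U n} ∈ 𝓝 x₀ := by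
  have h2 := hh.continuousAt (x := x₀)
  apply h2
  rw [h1]
  exact hU.nhds n

theorem Sys.isOpen_not_cov (hU : Sys U) (F : Finset G) (n : ℕ) {h : X → G} (hh : Continuous h) :
    IsOpen {x | ¬ Cov F (U n) (h x)} := by
  have h1 : {x | ¬ Cov F (U n) (h x)} = (⋃ e ∈ F, (fun x => e⁻¹ * h x) ⁻¹' U n)ᶜ := by
    ext x
    simp only [Cov, mem_ofPred_eq, mem_compl_iff, mem_iUnion, mem_preimage, exists_prop]
  rw [h1, isOpen_compl_iff]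
  apply isClosed_biUnion_finset
  intro e _
  exact (hU.closed n).preimage (by fun_prop)

/-- The pair `(O₁, O₂)` is good at level `r`. -/
def Good (f : X → G) (U : ℕ → Set G) (O₁ O₂ : Set X) (r : ℕ) : Prop :=
  ∃ q, ∀ F : Finset G, ∃ x₂ ∈ O₂,
    ¬ BdOn (fun x => (f x)⁻¹ * f x₂) {x ∈ O₁ | ¬ Cov F (U (r + 1)) ((f x)⁻¹ * f x₂)} (U q)

theorem caseA [CompleteSpace X] (hf : Continuous f) (hU : Sys U)
    (hX : ∀ O : Set X, IsOpen O → O.Nonempty → ∃ n, ¬ BdOn f O (U n))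
    {A B : Set X} (hA : IsOpen A) (hAne : A.Nonempty) (hB : IsOpen B) (hBne : B.Nonempty)
    (hgood : ∀ O₁ O₂ r, IsOpen O₁ → O₁.Nonempty → O₁ ⊆ A → IsOpen O₂ → O₂ ⊆ B →
      ¬ BdOn f O₂ (U r) → Good f U O₁ O₂ r) :
    ∃ N, ∀ F : ℕ → Finset G, ∃ g, ∀ n, N ≤ n → ¬ Cov (F n) (U n) g := by
  classical
  obtain ⟨r₀, hr₀⟩ := hX B hB hBne
  refine ⟨r₀ + 2, fun F => ?_⟩
  let P : Set (X × X) → ℕ → Prop := fun W r => ∃ O₁ O₂ : Set X, W = O₁ ×ˢ O₂ ∧ IsOpen O₁ ∧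
    O₁.Nonempty ∧ O₁ ⊆ A ∧ IsOpen O₂ ∧ O₂ ⊆ B ∧ ¬ BdOn f O₂ (U r) ∧
    ∀ x ∈ O₁, ∀ y ∈ O₂, ∀ n, r₀ + 2 ≤ n → n < r + 2 → ¬ Cov (F n) (U n) ((f x)⁻¹ * f y)
  have h0 : P (A ×ˢ B) r₀ :=
    ⟨A, B, rfl, hA, hAne, Subset.rfl, hB, Subset.rfl, hr₀, by intros; omega⟩
  have hne : ∀ W r, P W r → W.Nonempty := by
    rintro W r ⟨O₁, O₂, rfl, -, h1, -, -, -, h2, -⟩
    exact h1.prod (not_bdOn_nonempty h2)
  have hstep : ∀ W r, P W r → ∀ ε : ℝ, 0 < ε → ∃ W' r', r < r' ∧ P W' r' ∧ closure W' ⊆ W ∧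
      ∀ x ∈ W', ∀ y ∈ W', dist x y ≤ ε := by
    rintro W r ⟨O₁, O₂, rfl, ho₁, hn₁, hs₁, ho₂, hs₂, hfree, hprot⟩ ε hε
    obtain ⟨q₀, hq₀⟩ := hgood O₁ O₂ r ho₁ hn₁ hs₁ ho₂ hs₂ hfree
    obtain ⟨q, hq0, hq1⟩ : ∃ q, q₀ ≤ q ∧ r + 1 ≤ q := ⟨max q₀ (r + 1), by simp, by simp⟩
    let bigF : ℕ → Finset G := fun N => (Finset.range N).biUnion F
    have hbig : ∀ n N, n < N → F n ⊆ bigF N := fun n N h =>
      Finset.subset_biUnion_of_mem F (Finset.mem_range.2 h)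
    obtain ⟨x₂, hx₂, hx₂'⟩ := hq₀ (bigF (q + 1))
    have hW₂ : {y | (f x₂)⁻¹ * f y ∈ U (q + 2)} ∈ 𝓝 x₂ :=
      hU.preimage_mem (q + 2) (h := fun y => (f x₂)⁻¹ * f y) (by fun_prop) (by simp)
    obtain ⟨V₂, hV₂o, hV₂x, hV₂c, hV₂d⟩ := exists_small (inter_mem (ho₂.mem_nhds hx₂) hW₂) hε
    obtain ⟨r₁, hr₁⟩ := hX V₂ hV₂o ⟨x₂, hV₂x⟩
    obtain ⟨r', hr'1, hr'2⟩ : ∃ r', r₁ ≤ r' ∧ q + 1 ≤ r' := ⟨max r₁ (q + 1), by simp, by simp⟩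
    have hr' : ¬ BdOn f V₂ (U r') := fun h => hr₁ (h.mono Subset.rfl (hU.anti hr'1))
    have hx₂'' := fun h => hx₂' (BdOn.mono (U := U q) h Subset.rfl (hU.anti hq0))
    obtain ⟨x₁, ⟨hx₁, hx₁'⟩, hx₁''⟩ := exists_uncov hx₂'' (bigF (r' + 2))
    have hO₁' : IsOpen {x | ¬ Cov (bigF (q + 1)) (U (r + 1)) ((f x)⁻¹ * f x₂)} :=
      hU.isOpen_not_cov _ _ (by fun_prop)
    have hW₁ : {x | ((f x₁)⁻¹ * f x₂)⁻¹ * ((f x)⁻¹ * f x₂) ∈ U (q + 2)} ∈ 𝓝 x₁ :=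
      hU.preimage_mem (q + 2) (h := fun x => ((f x₁)⁻¹ * f x₂)⁻¹ * ((f x)⁻¹ * f x₂))
        (by fun_prop) (by simp)
    obtain ⟨V₁, hV₁o, hV₁x, hV₁c, hV₁d⟩ := exists_small
      (inter_mem (inter_mem (ho₁.mem_nhds hx₁) (hO₁'.mem_nhds hx₁')) hW₁) hε
    have hV₁s : V₁ ⊆ _ := subset_closure.trans hV₁c
    have hV₂s : V₂ ⊆ _ := subset_closure.trans hV₂c
    refine ⟨V₁ ×ˢ V₂, r', by omega, ⟨V₁, V₂, rfl, hV₁o, ⟨x₁, hV₁x⟩,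
      fun x hx => hs₁ (hV₁s hx).1.1, hV₂o, fun x hx => hs₂ (hV₂s hx).1, hr', ?_⟩, ?_, ?_⟩
    · intro x hx y hy n hn1 hn2 hcov
      have hxx := hV₁s hx
      have hyy := hV₂s hy
      have hu : (f y)⁻¹ * f x₂ ∈ U (q + 2) := by
        have := hU.symm _ _ hyy.2
        simpa using this
      rcases lt_or_ge n (r + 2) with h1 | h1
      · exact hprot x hxx.1.1 y hyy.1 n hn1 h1 hcov
      rcases lt_or_ge n (q + 1) with h2 | h2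
      · -- covered by the move of the right letter
        have h3 : Cov (F n) (U (r + 1)) ((f x)⁻¹ * f y * ((f y)⁻¹ * f x₂)) :=
          hU.cov_mul (by omega) (by omega) hcov hu
        have h4 : (f x)⁻¹ * f y * ((f y)⁻¹ * f x₂) = (f x)⁻¹ * f x₂ := by group
        rw [h4] at h3
        exact hxx.1.2 (h3.mono (hbig _ _ h2) Subset.rfl)
      · -- covered by the move of the left letter
        have hu' : ((f x)⁻¹ * f x₂)⁻¹ * ((f x₁)⁻¹ * f x₂) ∈ U (q + 2) := by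
          have := hU.symm _ _ hxx.2
          have h5 : (((f x₁)⁻¹ * f x₂)⁻¹ * ((f x)⁻¹ * f x₂))⁻¹ =
            ((f x)⁻¹ * f x₂)⁻¹ * ((f x₁)⁻¹ * f x₂) := by group
          rwa [h5] at this
        have hu2 : ((f y)⁻¹ * f x₂) * (((f x)⁻¹ * f x₂)⁻¹ * ((f x₁)⁻¹ * f x₂)) ∈ U (q + 1) :=
          hU.mul' le_rfl le_rfl hu hu'
        have h3 : Cov (F n) (U q) ((f x)⁻¹ * f y *
            (((f y)⁻¹ * f x₂) * (((f x)⁻¹ * f x₂)⁻¹ * ((f x₁)⁻¹ * f x₂)))) :=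
          hU.cov_mul h2 le_rfl hcov hu2
        have h4 : (f x)⁻¹ * f y *
            (((f y)⁻¹ * f x₂) * (((f x)⁻¹ * f x₂)⁻¹ * ((f x₁)⁻¹ * f x₂))) =
            (f x₁)⁻¹ * f x₂ := by group
        rw [h4] at h3
        exact hx₁'' (h3.mono (hbig _ _ hn2) Subset.rfl)
    · rw [closure_prod_eq]
      exact prod_mono (fun x hx => (hV₁c hx).1.1) (fun x hx => (hV₂c hx).1)
    · rintro ⟨a, b⟩ ⟨ha, hb⟩ ⟨c, d⟩ ⟨hc, hd⟩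
      rw [Prod.dist_eq]
      exact max_le (hV₁d a ha c hc) (hV₂d b hb d hd)
  obtain ⟨z, hz⟩ := fusion P hne hstep h0
  refine ⟨(f z.1)⁻¹ * f z.2, fun n hn => ?_⟩
  obtain ⟨W, r, hr, ⟨O₁, O₂, rfl, -, -, -, -, -, -, hp⟩, hzW⟩ := hz n
  exact hp _ hzW.1 _ hzW.2 n hn (by omega)

theorem caseB [CompleteSpace X] [Nonempty X] (hf : Continuous f) (hU : Sys U)
    (hX : ∀ O : Set X, IsOpen O → O.Nonempty → ∃ n, ¬ BdOn f O (U n))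
    (hbad : ∀ A B : Set X, IsOpen A → A.Nonempty → IsOpen B → B.Nonempty →
      ∃ O₁ O₂ r, IsOpen O₁ ∧ O₁.Nonempty ∧ O₁ ⊆ A ∧ IsOpen O₂ ∧ O₂ ⊆ B ∧
        ¬ BdOn f O₂ (U r) ∧ ¬ Good f U O₁ O₂ r) :
    ∃ N, ∀ F : ℕ → Finset G, ∃ g, ∀ n, N ≤ n → ¬ Cov (F n) (U n) g := by
  classical
  obtain ⟨A, B, s₀, hA, hAne, -, hB, -, hBfree, hbad0⟩ :=
    hbad univ univ isOpen_univ univ_nonempty isOpen_univ univ_nonempty
  obtain ⟨k₀, hk₀⟩ := hX A hA hAne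
  refine ⟨k₀ + 2, fun F => ?_⟩
  let P : Set (X × X × X) → ℕ → Prop := fun W k => ∃ O₁ O₂ O₃ : Set X, W = O₁ ×ˢ O₂ ×ˢ O₃ ∧
    IsOpen O₁ ∧ IsOpen O₂ ∧ IsOpen O₃ ∧ O₃.Nonempty ∧ (∃ r, ¬ BdOn f O₂ (U r) ∧
      ¬ Good f U O₁ O₂ r) ∧ ¬ BdOn f O₁ (U k) ∧
    ∀ x₁ ∈ O₁, ∀ x₂ ∈ O₂, ∀ x₃ ∈ O₃, ∀ n, k₀ + 2 ≤ n → n < k + 2 →
      ¬ Cov (F n) (U n) (f x₃ * (f x₂)⁻¹ * f x₁)
  have h0 : P (A ×ˢ B ×ˢ univ) k₀ :=
    ⟨A, B, univ, rfl, hA, hB, isOpen_univ, univ_nonempty, ⟨s₀, hBfree, hbad0⟩, hk₀,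
      by intros; omega⟩
  have hne : ∀ W r, P W r → W.Nonempty := by
    rintro W r ⟨O₁, O₂, O₃, rfl, -, -, -, h3, ⟨s, h2, -⟩, h1, -⟩
    exact (not_bdOn_nonempty h1).prod ((not_bdOn_nonempty h2).prod h3)
  have hstep : ∀ W r, P W r → ∀ ε : ℝ, 0 < ε → ∃ W' r', r < r' ∧ P W' r' ∧ closure W' ⊆ W ∧
      ∀ x ∈ W', ∀ y ∈ W', dist x y ≤ ε := by
    rintro W k ⟨O₁, O₂, O₃, rfl, ho₁, ho₂, ho₃, hn₃, ⟨r, hfree₂, hbad₂⟩, hfree₁, hprot⟩ ε hε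
    let bigF : ℕ → Finset G := fun N => (Finset.range N).biUnion F
    have hbig : ∀ n N, n < N → F n ⊆ bigF N := fun n N h =>
      Finset.subset_biUnion_of_mem F (Finset.mem_range.2 h)
    obtain ⟨q₃, hq₃⟩ := hX O₃ ho₃ hn₃
    -- the middle letter moves
    obtain ⟨v, hvO, e, O₁', ho₁', hO₁'s, hfree₁', he⟩ : ∃ y ∈ O₂, ∃ (e : G) (O₁' : Set X),
        IsOpen O₁' ∧ O₁' ⊆ O₁ ∧ ¬ BdOn f O₁' (U k) ∧
        ∀ x ∈ O₁', e⁻¹ * ((f x)⁻¹ * f y) ∈ U (q₃ + 3) := by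
      rw [Good] at hbad₂
      push Not at hbad₂
      obtain ⟨F₀, hF₀⟩ := hbad₂ (q₃ + 4)
      obtain ⟨y, hyO, hysep⟩ := exists_separated hfree₂
      have hF₀' := fun t => hF₀ (y t) (hyO t)
      choose E hE using hF₀'
      have hcover : ∀ x ∈ O₁, ∃ i ∈ (Finset.range (F₀.card + 1)).sigma E,
          (i.2)⁻¹ * ((f x)⁻¹ * f (y i.1)) ∈ U (q₃ + 4) := by
        intro x hx
        obtain ⟨t, ht, htc⟩ := hU.pigeonhole (a := fun t => f (y t)) hysep F₀ (f x)⁻¹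
        obtain ⟨e, he, he'⟩ := hE t x ⟨hx, htc⟩
        exact ⟨⟨t, e⟩, Finset.mem_sigma.2 ⟨ht, he⟩, he'⟩
      obtain ⟨⟨t, e⟩, hi, hib⟩ := exists_not_bdOn hfree₁ _ _ hcover
      refine ⟨y t, hyO t, e, {x ∈ O₁ | e⁻¹ * ((f x)⁻¹ * f (y t)) ∈ interior (U (q₃ + 3))}, ?_,
        fun x hx => hx.1, ?_, fun x hx => interior_subset hx.2⟩
      · exact ho₁.inter (isOpen_interior.preimage (by fun_prop))
      · intro hb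
        apply hib
        refine hb.mono ?_ Subset.rfl
        rintro x ⟨hx, hx'⟩
        refine ⟨hx, ?_⟩
        -- `U (q₃ + 4)` lies in the interior of `U (q₃ + 3)`
        rw [mem_interior_iff_mem_nhds]
        set g := e⁻¹ * ((f x)⁻¹ * f (y t)) with hg
        have h1 : {z | g⁻¹ * z ∈ U (q₃ + 4)} ∈ 𝓝 g :=
          hU.preimage_mem _ (h := fun z : G => g⁻¹ * z) (by fun_prop) (inv_mul_cancel g)
        filter_upwards [h1] with z hz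
        have := hU.mul _ _ hx' _ hz
        rwa [mul_inv_cancel_left] at this
    -- the right letter moves
    obtain ⟨q'₀, hq'₀⟩ := hU.conj e (q₃ + 3)
    obtain ⟨q', hq'1, hq'2⟩ : ∃ q', q'₀ ≤ q' ∧ k + 2 ≤ q' :=
      ⟨max q'₀ (k + 2), by simp, by simp⟩
    have hq' : ∀ n, q' ≤ n → ∀ x ∈ U n, e⁻¹ * x * e ∈ U (q₃ + 3) := fun n hn x hx =>
      hq'₀ x (hU.anti (hq'1.trans hn) hx)
    obtain ⟨z, hzO, hzsep⟩ := exists_separated hfree₁'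
    have hcover3 : ∀ x ∈ O₃, ∃ t ∈ Finset.range ((bigF q').card + 1),
        ¬ Cov (bigF q') (U (k + 1)) (f x * (f v)⁻¹ * f (z t)) := by
      intro x hx
      exact hU.pigeonhole (a := fun t => f (z t)) hzsep (bigF q') (f x * (f v)⁻¹)
    obtain ⟨t, -, ht⟩ := exists_not_bdOn hq₃ _ _ hcover3
    obtain ⟨α, hα⟩ : ∃ α, α = z t := ⟨_, rfl⟩
    rw [← hα] at ht
    have hαO : α ∈ O₁' := by rw [hα]; exact hzO t
    have hO₃' : IsOpen {x ∈ O₃ | ¬ Cov (bigF q') (U (k + 1)) (f x * (f v)⁻¹ * f α)} :=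
      ho₃.inter (hU.isOpen_not_cov _ _ (by fun_prop))
    -- small neighbourhoods of `α` and `v`
    have hcont : {p : X × X | (f α)⁻¹ * f v * (f p.2)⁻¹ * f p.1 ∈ U (k + 2)} ∈ 𝓝 (α, v) :=
      hU.preimage_mem (k + 2) (h := fun p : X × X => (f α)⁻¹ * f v * (f p.2)⁻¹ * f p.1)
        (by fun_prop) (by simp)
    rw [nhds_prod_eq] at hcont
    obtain ⟨N₁, hN₁, N₂, hN₂, hN⟩ := Filter.mem_prod_iff.1 hcont
    have hW₂ : {y | (f v)⁻¹ * f y ∈ U (q₃ + 3)} ∈ 𝓝 v :=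
      hU.preimage_mem (q₃ + 3) (h := fun y => (f v)⁻¹ * f y) (by fun_prop) (by simp)
    obtain ⟨V₁, hV₁o, hV₁x, hV₁c, hV₁d⟩ := exists_small
      (inter_mem (ho₁'.mem_nhds hαO) hN₁) hε
    obtain ⟨V₂, hV₂o, hV₂x, hV₂c, hV₂d⟩ := exists_small
      (inter_mem (inter_mem (ho₂.mem_nhds hvO) hN₂) hW₂) hε
    obtain ⟨Q₁, Q₂, r'', hQ₁o, hQ₁n, hQ₁s, hQ₂o, hQ₂s, hQ₂f, hQbad⟩ :=
      hbad V₁ V₂ hV₁o ⟨α, hV₁x⟩ hV₂o ⟨v, hV₂x⟩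
    obtain ⟨k₁, hk₁⟩ := hX Q₁ hQ₁o hQ₁n
    obtain ⟨k', hk'1, hk'2⟩ : ∃ k', k₁ ≤ k' ∧ q' ≤ k' := ⟨max k₁ q', by simp, by simp⟩
    have hfree₁'' : ¬ BdOn f Q₁ (U k') := fun h => hk₁ (h.mono Subset.rfl (hU.anti hk'1))
    -- the left letter moves
    obtain ⟨c, ⟨hcO, hc1⟩, hc2⟩ := exists_uncov ht ((bigF (k' + 2)).image fun f => f * e)
    have hW₃ : {x | (f x)⁻¹ * f c ∈ U (q₃ + 1)} ∈ 𝓝 c :=
      hU.preimage_mem (q₃ + 1) (h := fun x => (f x)⁻¹ * f c) (by fun_prop) (by simp)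
    obtain ⟨V₃, hV₃o, hV₃x, hV₃c, hV₃d⟩ := exists_small
      (inter_mem (hO₃'.mem_nhds ⟨hcO, hc1⟩) hW₃) hε
    have hV₁s : V₁ ⊆ _ := subset_closure.trans hV₁c
    have hV₂s : V₂ ⊆ _ := subset_closure.trans hV₂c
    have hV₃s : V₃ ⊆ _ := subset_closure.trans hV₃c
    refine ⟨Q₁ ×ˢ Q₂ ×ˢ V₃, k', by omega, ⟨Q₁, Q₂, V₃, rfl, hQ₁o, hQ₂o, hV₃o, ⟨c, hV₃x⟩,
      ⟨r'', hQ₂f, hQbad⟩, hfree₁'', ?_⟩, ?_, ?_⟩
    · intro x₁ hx₁ x₂ hx₂ x₃ hx₃ n hn1 hn2 hcov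
      have h₁ := hV₁s (hQ₁s hx₁)
      have h₂ := hV₂s (hQ₂s hx₂)
      have h₃ := hV₃s hx₃
      rcases lt_or_ge n (k + 2) with hn3 | hn3
      · exact hprot x₁ (hO₁'s h₁.1) x₂ h₂.1.1 x₃ h₃.1.1 n hn1 hn3 hcov
      rcases lt_or_ge n q' with hn4 | hn4
      · -- the move of the right letter
        have hu : (f α)⁻¹ * f v * (f x₂)⁻¹ * f x₁ ∈ U (k + 2) :=
          hN (mk_mem_prod h₁.2 h₂.1.2)
        have hu' := hU.symm _ _ hu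
        have h4 : Cov (F n) (U (k + 1)) (f x₃ * (f x₂)⁻¹ * f x₁ *
            ((f α)⁻¹ * f v * (f x₂)⁻¹ * f x₁)⁻¹) := hU.cov_mul hn3 le_rfl hcov hu'
        have h5 : f x₃ * (f x₂)⁻¹ * f x₁ * ((f α)⁻¹ * f v * (f x₂)⁻¹ * f x₁)⁻¹ =
            f x₃ * (f v)⁻¹ * f α := by group
        rw [h5] at h4
        exact h₃.1.2 (h4.mono (hbig _ _ hn4) Subset.rfl)
      · -- the move of the left letter
        obtain ⟨p, hp, hpn⟩ := hcov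
        apply hc2
        refine ⟨p * e, Finset.mem_image_of_mem _ (hbig _ _ hn2 hp), ?_⟩
        -- `e⁻¹ (p⁻¹ x₃ x₂⁻¹ x₁) e ∈ U (q₃ + 3)`
        have a1 := hq' n hn4 _ hpn
        -- `e⁻¹ x₁⁻¹ v ∈ U (q₃ + 3)`
        have a2 := he x₁ h₁.1
        have a3 := h₂.2
        have a4 := h₃.2
        have b1 : e⁻¹ * ((f x₁)⁻¹ * f v) * ((f v)⁻¹ * f x₂) ∈ U (q₃ + 2) :=
          hU.mul' le_rfl le_rfl a2 a3
        have b2 : e⁻¹ * (p⁻¹ * (f x₃ * (f x₂)⁻¹ * f x₁)) * e *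
            (e⁻¹ * ((f x₁)⁻¹ * f v) * ((f v)⁻¹ * f x₂)) ∈ U (q₃ + 1) :=
          hU.mul' (by omega) le_rfl a1 b1
        have b3 := hU.mul' le_rfl le_rfl b2 a4
        have b4 : e⁻¹ * (p⁻¹ * (f x₃ * (f x₂)⁻¹ * f x₁)) * e *
            (e⁻¹ * ((f x₁)⁻¹ * f v) * ((f v)⁻¹ * f x₂)) * ((f x₃)⁻¹ * f c) =
            (p * e)⁻¹ * f c := by group
        rwa [b4] at b3
    · rw [closure_prod_eq, closure_prod_eq]
      refine prod_mono ?_ (prod_mono ?_ ?_)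
      · exact fun x hx => hO₁'s (hV₁c (closure_mono hQ₁s hx)).1
      · exact fun x hx => (hV₂c (closure_mono hQ₂s hx)).1.1
      · exact fun x hx => (hV₃c hx).1.1
    · rintro ⟨a, b, c⟩ ⟨ha, hb, hc⟩ ⟨a', b', c'⟩ ⟨ha', hb', hc'⟩
      rw [Prod.dist_eq, Prod.dist_eq]
      exact max_le (hV₁d a (hQ₁s ha) a' (hQ₁s ha'))
        (max_le (hV₂d b (hQ₂s hb) b' (hQ₂s hb')) (hV₃d c hc c' hc'))
  obtain ⟨z, hz⟩ := fusion P hne hstep h0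
  refine ⟨f z.2.2 * (f z.2.1)⁻¹ * f z.1, fun n hn => ?_⟩
  obtain ⟨W, r, hr, ⟨O₁, O₂, O₃, rfl, -, -, -, -, -, -, hp⟩, hzW⟩ := hz n
  exact hp _ hzW.1 _ hzW.2.1 _ hzW.2.2 n hn (by omega)

/-- Nowhere bounded continuous images of complete metric spaces prevent `o`-boundedness. -/
theorem core [CompleteSpace X] [Nonempty X] (hf : Continuous f) (hU : Sys U)
    (hX : ∀ O : Set X, IsOpen O → O.Nonempty → ∃ n, ¬ BdOn f O (U n)) :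
    ∃ N, ∀ F : ℕ → Finset G, ∃ g, ∀ n, N ≤ n → ¬ Cov (F n) (U n) g := by
  by_cases h : ∃ A B : Set X, IsOpen A ∧ A.Nonempty ∧ IsOpen B ∧ B.Nonempty ∧
      ∀ O₁ O₂ r, IsOpen O₁ → O₁.Nonempty → O₁ ⊆ A → IsOpen O₂ → O₂ ⊆ B →
        ¬ BdOn f O₂ (U r) → Good f U O₁ O₂ r
  · obtain ⟨A, B, hA, hAn, hB, hBn, h⟩ := h
    exact caseA hf hU hX hA hAn hB hBn h
  · apply caseB hf hU hX
    intro A B hA hAn hB hBn
    by_contra hcon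
    apply h
    refine ⟨A, B, hA, hAn, hB, hBn, fun O₁ O₂ r h1 h2 h3 h4 h5 h6 => ?_⟩
    by_contra h7
    exact hcon ⟨O₁, O₂, r, h1, h2, h3, h4, h5, h6, h7⟩

end Pool.Agent.MP_b00c97_gt
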