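import Pool.Agent.MP_b00c97_gt.Recursion

/-!
# MP_b00c97_gt: consistency of an `o`-bounded metrizable group where player I wins
-/

set_option autoImplicit false

open Topology Filter Set Pointwise Cardinal

namespace Pool.Agent.MP_b00c97_gt.ConsistentExample

open Pool.Agent.MP_b00c97_gt.Ex

universe u

/-- A subset `A` of a topological group is `o`-bounded. -/
def OBounded {G : Type u} [Group G] [TopologicalSpace G] (A : Set G) : Prop :=
  ∀ U : ℕ → Set G, (∀ n, U n ∈ 𝓝 (1 : G)) →
    ∃ F : ℕ → Finset G, A ⊆ ⋃ n, (F n : Set G) * U n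

/-- Player I has a winning strategy in the Open-Finite game `OF(A)`: a rule `σ` giving a
neighbourhood of the identity as a function of the finite list of earlier moves of player II,
such that no sequence of finite sets played by II leads to a cover of `A`. -/
def FirstWins {G : Type u} [Group G] [TopologicalSpace G] (A : Set G) : Prop :=
  ∃ σ : List (Finset G) → Set G, (∀ l, σ l ∈ 𝓝 (1 : G)) ∧
    ∀ F : ℕ → Finset G, ¬ A ⊆ ⋃ n, (F n : Set G) * σ ((List.range n).map F)

/-- `cov(M) = c` (equivalently Martin's axiom for countable posets): fewer than continuum many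
dense open subsets of the Baire space have a common point. -/
def CovMeagerEqContinuum : Prop :=
  ∀ 𝒟 : Set (Set (ℕ → ℕ)), #𝒟 < 𝔠 → (∀ D ∈ 𝒟, IsOpen D ∧ Dense D) → (⋂₀ 𝒟).Nonempty

/-- The continuum hypothesis implies `cov(M) = c`. -/
theorem covMeager_of_ch (h : (𝔠 : Cardinal.{0}) = ℵ₁) : CovMeagerEqContinuum := by
  intro 𝒟 h𝒟 hD
  have hc : 𝒟.Countable := by
    rw [h] at h𝒟
    rw [← Cardinal.le_aleph0_iff_set_countable]
    rw [← Cardinal.succ_aleph0] at h𝒟
    exact Order.lt_succ_iff.1 h𝒟
  have hd : Dense (⋂₀ 𝒟) := dense_sInter_of_isOpen (fun D hDD => (hD D hDD).1) hc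
    (fun D hDD => (hD D hDD).2)
  exact hd.nonempty

/-! ### The subgroup of the Baer-Specker group attached to a family of sequences -/

section group

variable {I : Type} (X : I → ℕ → ℤ)

/-- The subgroup of `ℤ^ℕ` (written multiplicatively) generated by a family of sequences. -/
def gen : Subgroup (ℕ → Multiplicative ℤ) where
  carrier := {f | ∃ l : List (I × ℤ), ∀ i, (f i).toAdd = comb X l i}
  mul_mem' := by
    rintro f f' ⟨l, hl⟩ ⟨l', hl'⟩
    exact ⟨l ++ l', fun i => by rw [comb_append, Pi.mul_apply, toAdd_mul, hl, hl']⟩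
  one_mem' := ⟨[], fun i => by simp⟩
  inv_mem' := by
    rintro f ⟨l, hl⟩
    exact ⟨l.map (fun q => (q.1, -q.2)), fun i => by rw [comb_neg, Pi.inv_apply, toAdd_inv, hl]⟩

variable {X}

theorem cyl_mem_nhds (k : ℕ) : {f : gen X | ∀ i < k, f.1 i = 1} ∈ 𝓝 (1 : gen X) := by
  apply IsOpen.mem_nhds
  · have h1 : {f : gen X | ∀ i < k, f.1 i = 1} =
        ⋂ i ∈ Finset.range k, {f : gen X | f.1 i = 1} := by
      ext f
      simp
    rw [h1]
    apply isOpen_biInter_finset
    intro i _
    have hc : Continuous (fun f : gen X => f.1 i) := (continuous_apply i).comp continuous_subtype_val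
    exact (isOpen_discrete {(1 : Multiplicative ℤ)}).preimage hc
  · intro i _
    rfl

theorem exists_cyl {U : Set (gen X)} (hU : U ∈ 𝓝 (1 : gen X)) :
    ∃ k, ∀ f : gen X, (∀ i < k, f.1 i = 1) → f ∈ U := by
  rw [nhds_subtype_eq_comap, Filter.mem_comap] at hU
  obtain ⟨V, hV, hVU⟩ := hU
  rw [mem_nhds_iff] at hV
  obtain ⟨W, hWV, hWo, hW1⟩ := hV
  obtain ⟨_, ⟨x, n, rfl⟩, hx, hxW⟩ :=
    (PiNat.isTopologicalBasis_cylinders (fun _ : ℕ => Multiplicative ℤ)).exists_subset_of_mem_open
      hW1 hWo
  refine ⟨n, fun f hf => hVU (hWV (hxW ?_))⟩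
  intro i hi
  rw [hf i hi]
  exact hx i hi

end group

theorem exists_lower {I : Type} [LT I] (X : I → ℕ → ℤ) (a : I) (l : List (I × ℤ))
    (h : ∀ q ∈ l, q.1 < a) :
    ∃ l' : List ({b : I // b < a} × ℤ), ∀ i, comb (fun j : {b : I // b < a} => X j.1) l' i =
      comb X l i := by
  induction l with
  | nil => exact ⟨[], fun i => by simp⟩
  | cons q l ih =>
    obtain ⟨l', hl'⟩ := ih (fun q' hq' => h q' (List.mem_cons_of_mem _ hq'))
    refine ⟨(⟨q.1, h q (List.mem_cons_self ..)⟩, q.2) :: l', fun i => ?_⟩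
    rw [comb_cons, comb_cons, hl' i]

theorem exists_split {I : Type} [DecidableEq I] (X : I → ℕ → ℤ) (a : I) (l : List (I × ℤ)) :
    ∃ c : ℤ, ∀ i, comb X l i = c * X a i + comb X (l.filter (fun q => q.1 ≠ a)) i := by
  induction l with
  | nil => exact ⟨0, fun i => by simp⟩
  | cons q l ih =>
    obtain ⟨c, hc⟩ := ih
    by_cases hq : q.1 = a
    · refine ⟨q.2 + c, fun i => ?_⟩
      rw [comb_cons, hc i, List.filter_cons_of_neg (by simp [hq]), hq]
      ring
    · refine ⟨c, fun i => ?_⟩
      rw [comb_cons, hc i, List.filter_cons_of_pos (by simp [hq]), comb_cons]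
      ring

/-- The family of sequences together with the promises. -/
theorem exists_family (h : CovMeagerEqContinuum) :
    ∃ (I : Type) (X : I → ℕ → ℤ) (e g : I → ℕ → ℕ), Function.Surjective e ∧
      (∀ a n, ∃ i < pos (e a) n, e a n < (X a i).natAbs) ∧
      ∀ (l : List (I × ℤ)) (a : I), ∃ m, Small (comb X l) (kk (e a) m) (gg (e a) (g a) m) := by
  classical
  let I : Type := (#(ℕ → ℕ)).ord.ToType
  have hI : #I = #(ℕ → ℕ) := by simp [I]
  obtain ⟨e⟩ := Cardinal.eq.1 hI
  have hcont : #(ℕ → ℕ) = 𝔠 := by simp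
  have hlt : ∀ a : I, #{b : I // b < a} < 𝔠 := by
    intro a
    have h1 : #(Iio a) < #I := Cardinal.mk_Iio_lt a (by rw [hI]; simp [I])
    exact lt_of_lt_of_eq h1 (hI.trans hcont)
  obtain ⟨Φ, hΦ⟩ := exists_rec (I := I) (Y := (ℕ → ℤ) × (ℕ → ℕ))
    (fun a p => {yg | (∀ n, ∃ i < pos (e a) n, e a n < (yg.1 i).natAbs) ∧
      (∀ l : List ({b : I // b < a} × ℤ),
        ∃ m, Small (comb (fun j => (p j.1 j.2).1) l) (kk (e a) m) (gg (e a) yg.2 m)) ∧
      (∀ (l : List ({b : I // b < a} × ℤ)) (c : ℤ), c ≠ 0 →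
        ∃ m, Small (fun i => c * yg.1 i + comb (fun j => (p j.1 j.2).1) l i) (kk (e a) m)
          (gg (e a) yg.2 m)) ∧
      (∀ (l : List ({b : I // b < a} × ℤ)) (c : ℤ), c ≠ 0 → ∀ j : {b : I // b < a},
        ∃ m, Small (fun i => c * yg.1 i + comb (fun j => (p j.1 j.2).1) l i) (kk (e j.1) m)
          (gg (e j.1) (p j.1 j.2).2 m))}) (by
      intro a p
      obtain ⟨y, g, h1, h2, h3, h4⟩ := exists_step h (hlt a) (e a)
        (fun j : {b : I // b < a} => (p j.1 j.2).1) (fun j => e j.1) (fun j => (p j.1 j.2).2)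
      exact ⟨(y, g), h1, h2, h3, h4⟩)
  refine ⟨I, fun a => (Φ a).1, fun a => e a, fun a => (Φ a).2, e.surjective,
    fun a => (hΦ a).1, ?_⟩
  have key : ∀ n : ℕ, ∀ l : List (I × ℤ), l.length ≤ n → ∀ a : I,
      ∃ m, Small (comb (fun a => (Φ a).1) l) (kk (e a) m) (gg (e a) (Φ a).2 m) := by
    intro n
    induction n with
    | zero =>
      intro l hl a
      have : l = [] := List.length_eq_zero_iff.1 (by omega)
      subst this
      exact ⟨0, fun i _ => by simp⟩
    | succ n ih =>
      intro l hl a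
      by_cases hnil : l = []
      · subst hnil
        exact ⟨0, fun i _ => by simp⟩
      · -- the largest index
        obtain ⟨t, ht, hmax⟩ := Finset.exists_max_image (l.map Prod.fst).toFinset (fun x => x) (by
          obtain ⟨q, l', rfl⟩ := List.exists_cons_of_ne_nil hnil
          exact ⟨q.1, by simp⟩)
        rw [List.mem_toFinset] at ht
        have hmax' : ∀ q ∈ l, q.1 ≤ t := fun q hq => hmax q.1 (by
          rw [List.mem_toFinset]
          exact List.mem_map_of_mem hq)
        obtain ⟨c, hc⟩ := exists_split (fun a => (Φ a).1) t l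
        set l' := l.filter (fun q => q.1 ≠ t) with hl'
        have hlen : l'.length < l.length := by
          rw [hl']
          obtain ⟨q, hq, hqt⟩ := List.mem_map.1 ht
          apply List.length_filter_lt_length_iff_exists.2
          exact ⟨q, hq, by simp [hqt]⟩
        have hlow : ∀ q ∈ l', q.1 < t := by
          intro q hq
          rw [hl', List.mem_filter] at hq
          exact lt_of_le_of_ne (hmax' q hq.1) (by simpa using hq.2)
        by_cases hc0 : c = 0
        · obtain ⟨m, hm⟩ := ih l' (by omega) a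
          refine ⟨m, fun i hi => ?_⟩
          rw [hc i, hc0, zero_mul, zero_add]
          exact hm i hi
        · obtain ⟨l'', hl''⟩ := exists_lower (fun a => (Φ a).1) t l' hlow
          rcases lt_trichotomy a t with hat | hat | hat
          · obtain ⟨m, hm⟩ := (hΦ t).2.2.2 l'' c hc0 ⟨a, hat⟩
            refine ⟨m, fun i hi => ?_⟩
            have := hm i hi
            simp only at this
            rw [hc i, ← hl'' i]
            exact this
          · subst hat
            obtain ⟨m, hm⟩ := (hΦ a).2.2.1 l'' c hc0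
            refine ⟨m, fun i hi => ?_⟩
            have := hm i hi
            simp only at this
            rw [hc i, ← hl'' i]
            exact this
          · obtain ⟨l₃, hl₃⟩ := exists_lower (fun a => (Φ a).1) a l
              (fun q hq => lt_of_le_of_lt (hmax' q hq) hat)
            obtain ⟨m, hm⟩ := (hΦ a).2.1 l₃
            refine ⟨m, fun i hi => ?_⟩
            have := hm i hi
            rw [hl₃ i] at this
            exact this
  exact fun l a => key l.length l le_rfl a

section game

variable {I : Type} {X : I → ℕ → ℤ} {e g : I → ℕ → ℕ}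

theorem oBounded_gen (he : Function.Surjective e)
    (hg : ∀ (l : List (I × ℤ)) (a : I), ∃ m, Small (comb X l) (kk (e a) m) (gg (e a) (g a) m)) :
    OBounded (univ : Set (gen X)) := by
  classical
  intro U hU
  choose k hk using fun n => exists_cyl (hU n)
  obtain ⟨a, ha⟩ := he k
  -- representatives
  let R : ℕ → Set (gen X) := fun m => {f | Small (fun i => (f.1 i).toAdd) (kk k m) (gg k (g a) m)}
  have hfin : ∀ m, ((fun (f : gen X) (i : Fin (kk k m)) => (f.1 i).toAdd) '' R m).Finite := by
    intro m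
    apply Set.Finite.subset (Set.Finite.pi' (fun _ : Fin (kk k m) =>
      Set.finite_Icc (-(gg k (g a) m : ℤ)) (gg k (g a) m)))
    rintro _ ⟨f, hf, rfl⟩ i
    have h1 := hf i i.2
    simp only at h1
    rw [Set.mem_Icc, ← abs_le, Int.abs_eq_natAbs]
    exact_mod_cast h1
  have hrep : ∀ m, ∃ F : Finset (gen X), ∀ f ∈ R m, ∃ f' ∈ F, ∀ i < kk k m, f'.1 i = f.1 i := by
    intro m
    obtain ⟨T, hTR, hT⟩ := Set.exists_subset_bijOn (R m)
      (fun (f : gen X) (i : Fin (kk k m)) => (f.1 i).toAdd)
    have hTfin : T.Finite := by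
      apply Set.Finite.of_finite_image _ hT.injOn
      rw [hT.image_eq]
      exact hfin m
    refine ⟨hTfin.toFinset, fun f hf => ?_⟩
    obtain ⟨f', hf', hff'⟩ := hT.surjOn (Set.mem_image_of_mem _ hf)
    refine ⟨f', hTfin.mem_toFinset.2 hf', fun i hi => ?_⟩
    have := congrFun hff' ⟨i, hi⟩
    simpa using this
  choose F hF using hrep
  refine ⟨F, fun f _ => ?_⟩
  obtain ⟨l, hl⟩ := f.2
  obtain ⟨m, hm⟩ := hg l a
  rw [ha] at hm
  have hfR : f ∈ R m := by
    intro i hi
    simp only
    rw [hl i]
    exact hm i hi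
  obtain ⟨f', hf', hff'⟩ := hF m f hfR
  rw [mem_iUnion]
  refine ⟨m, Set.mem_mul.2 ⟨f', hf', f'⁻¹ * f, ?_, by group⟩⟩
  apply hk m
  intro i hi
  have : i < kk k m := by
    simp only [kk]
    omega
  have h2 := hff' i this
  show (f'.1 i)⁻¹ * f.1 i = 1
  rw [h2]
  exact inv_mul_cancel _

/-- The largest absolute value of the first `p` coordinates of the elements of `F`. -/
noncomputable def size (F : Finset (gen X)) (p : ℕ) : ℕ :=
  F.sup (fun f => (Finset.range p).sup (fun i => (f.1 i).toAdd.natAbs))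

theorem le_size {F : Finset (gen X)} {p : ℕ} {f : gen X} (hf : f ∈ F) {i : ℕ} (hi : i < p) :
    (f.1 i).toAdd.natAbs ≤ size F p :=
  (Finset.le_sup (f := fun i => (f.1 i).toAdd.natAbs) (Finset.mem_range.2 hi)).trans
    (Finset.le_sup (f := fun f : gen X => (Finset.range p).sup
      (fun i => (f.1 i).toAdd.natAbs)) hf)

/-- The position after the moves in a list of moves of player II. -/
noncomputable def after (l : List (Finset (gen X))) : ℕ :=
  l.foldl (fun p F => p + (size F p + 1)) 1

theorem firstWins_gen (he : Function.Surjective e)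
    (hx : ∀ a n, ∃ i < pos (e a) n, e a n < (X a i).natAbs) :
    FirstWins (univ : Set (gen X)) := by
  classical
  refine ⟨fun l => {f | ∀ i < after l, f.1 i = 1}, fun l => cyl_mem_nhds _, ?_⟩
  intro F hF
  -- the code of the play
  let P : ℕ → ℕ := fun n => after ((List.range n).map F)
  let b : ℕ → ℕ := fun n => size (F n) (P n)
  have hP : ∀ n, P n = pos b n := by
    intro n
    induction n with
    | zero => simp [P, after, pos_zero]
    | succ n ih =>
      rw [pos_succ, ← ih]
      simp only [P, b, List.range_succ, List.map_append, after, List.foldl_append]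
      rfl
  obtain ⟨a, ha⟩ := he b
  let f : gen X := ⟨fun i => Multiplicative.ofAdd (X a i), ⟨[(a, 1)], fun i => by simp⟩⟩
  have hf := hF (mem_univ f)
  rw [mem_iUnion] at hf
  obtain ⟨n, hn⟩ := hf
  obtain ⟨f', hf', u, hu, hfu⟩ := Set.mem_mul.1 hn
  obtain ⟨i, hi, hi'⟩ := hx a n
  rw [ha] at hi hi'
  have hui : u.1 i = 1 := hu i (by
    show i < P n
    rw [hP n]
    exact hi)
  have h1 : f.1 i = f'.1 i := by
    rw [← hfu]
    show f'.1 i * u.1 i = f'.1 i
    rw [hui, mul_one]
  have h2 : (f'.1 i).toAdd.natAbs ≤ size (F n) (P n) := le_size hf' (by rw [hP n]; exact hi)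
  have h3 : (f.1 i).toAdd = X a i := rfl
  rw [← h1, h3] at h2
  exact absurd hi' (not_lt.2 h2)

end game

/-- If `cov(M) = c`, in particular if the continuum hypothesis holds, then there is an `o`-bounded
subgroup of the Baer-Specker group `ℤ^ℕ` (a separable metrizable abelian group) for which player I
has a winning strategy in the Open-Finite game. -/
theorem main :
    ((𝔠 : Cardinal.{0}) = ℵ₁ → CovMeagerEqContinuum) ∧
    (CovMeagerEqContinuum →
      ∃ G : Subgroup (ℕ → Multiplicative ℤ),
        TopologicalSpace.MetrizableSpace G ∧ TopologicalSpace.SeparableSpace G ∧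
        OBounded (univ : Set G) ∧ FirstWins (univ : Set G)) := by
  refine ⟨covMeager_of_ch, fun h => ?_⟩
  obtain ⟨I, X, e, g, he, hx, hg⟩ := exists_family h
  have h0 : SecondCountableTopology (Multiplicative ℤ) :=
    inferInstanceAs (SecondCountableTopology ℤ)
  have h2 : SecondCountableTopology (gen X) :=
    TopologicalSpace.Subtype.secondCountableTopology _
  have h4 : TopologicalSpace.MetrizableSpace (gen X) :=
    TopologicalSpace.metrizableSpace_of_t3_secondCountable (gen X)
  exact ⟨gen X, h4, inferInstance, oBounded_gen he hg, firstWins_gen he hx⟩
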