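import Mathlib

open Topology Filter Set

namespace Pool.Agent.MP_b00c97_gt

universe u v

section basic

variable {G : Type u} [Group G]

/-- `g` lies in a finite union of left translates `e U`, `e ∈ F`. -/
def Cov (F : Finset G) (U : Set G) (g : G) : Prop := ∃ e ∈ F, e⁻¹ * g ∈ U

theorem Cov.mono {F F' : Finset G} {U U' : Set G} {g : G} (h : Cov F U g) (hF : F ⊆ F')
    (hU : U ⊆ U') : Cov F' U' g := by
  obtain ⟨e, he, heg⟩ := h
  exact ⟨e, hF he, hU heg⟩

/-- The image `h '' O` is covered by finitely many left translates of `U`. -/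
def BdOn {X : Type v} (h : X → G) (O : Set X) (U : Set G) : Prop :=
  ∃ E : Finset G, ∀ x ∈ O, Cov E U (h x)

variable {X : Type v} {h : X → G} {O O' : Set X} {U U' : Set G}

theorem BdOn.mono (hb : BdOn h O U) (hO : O' ⊆ O) (hU : U ⊆ U') : BdOn h O' U' := by
  obtain ⟨E, hE⟩ := hb
  exact ⟨E, fun x hx => (hE x (hO hx)).mono (Finset.Subset.refl _) hU⟩

theorem exists_not_bdOn {ι : Type*} (hn : ¬ BdOn h O U) (s : Finset ι) (P : ι → X → Prop)
    (hP : ∀ x ∈ O, ∃ i ∈ s, P i x) : ∃ i ∈ s, ¬ BdOn h {x ∈ O | P i x} U := by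
  classical
  by_contra hcon
  push Not at hcon
  apply hn
  choose! E hE using hcon
  refine ⟨s.biUnion E, fun x hx => ?_⟩
  obtain ⟨i, hi, hix⟩ := hP x hx
  exact (hE i hi x ⟨hx, hix⟩).mono (Finset.subset_biUnion_of_mem E hi) (Subset.refl _)

theorem exists_uncov (hn : ¬ BdOn h O U) (F : Finset G) : ∃ x ∈ O, ¬ Cov F U (h x) := by
  by_contra hcon
  push Not at hcon
  exact hn ⟨F, hcon⟩

theorem not_bdOn_nonempty (hn : ¬ BdOn h O U) : O.Nonempty := by
  obtain ⟨x, hx, _⟩ := exists_uncov hn ∅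
  exact ⟨x, hx⟩

theorem exists_separated (hn : ¬ BdOn h O U) :
    ∃ y : ℕ → X, (∀ t, y t ∈ O) ∧ ∀ t s, t < s → (h (y t))⁻¹ * h (y s) ∉ U := by
  classical
  apply exists_seq_of_forall_finset_exists (fun x => x ∈ O) (fun x y => (h x)⁻¹ * h y ∉ U)
  intro s _
  obtain ⟨x, hx, hxc⟩ := exists_uncov hn (s.image h)
  refine ⟨x, hx, fun z hz hzx => hxc ⟨h z, Finset.mem_image_of_mem h hz, hzx⟩⟩

end basic

/-- A normalised sequence of neighbourhoods of the identity. -/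
structure Sys {G : Type u} [Group G] [TopologicalSpace G] (U : ℕ → Set G) : Prop where
  nhds : ∀ n, U n ∈ 𝓝 (1 : G)
  closed : ∀ n, IsClosed (U n)
  symm : ∀ n, ∀ x ∈ U n, x⁻¹ ∈ U n
  mul : ∀ n, ∀ x ∈ U (n + 1), ∀ y ∈ U (n + 1), x * y ∈ U n
  conj : ∀ (g : G) (n : ℕ), ∃ m, ∀ x ∈ U m, g⁻¹ * x * g ∈ U n

section sys

variable {G : Type u} [Group G] [TopologicalSpace G] {U : ℕ → Set G}

theorem Sys.one_mem (hU : Sys U) (n : ℕ) : (1 : G) ∈ U n := mem_of_mem_nhds (hU.nhds n)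

theorem Sys.anti (hU : Sys U) : Antitone U := by
  apply antitone_nat_of_succ_le
  intro n x hx
  have := hU.mul n x hx 1 (hU.one_mem _)
  simpa using this

theorem Sys.mul' (hU : Sys U) {k m n : ℕ} (hm : k + 1 ≤ m) (hn : k + 1 ≤ n) {x y : G}
    (hx : x ∈ U m) (hy : y ∈ U n) : x * y ∈ U k :=
  hU.mul k x (hU.anti hm hx) y (hU.anti hn hy)

/-- Multiplying a covered element by a small element on the right. -/
theorem Sys.cov_mul (hU : Sys U) {k m n : ℕ} (hm : k + 1 ≤ m) (hn : k + 1 ≤ n)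
    {F : Finset G} {g u : G} (hg : Cov F (U m) g) (hu : u ∈ U n) : Cov F (U k) (g * u) := by
  obtain ⟨e, he, heg⟩ := hg
  refine ⟨e, he, ?_⟩
  rw [← mul_assoc]
  exact hU.mul' hm hn heg hu

/-- Pigeonhole: among `|F| + 1` separated elements, one is moved by `g` outside `F U`. -/
theorem Sys.pigeonhole (hU : Sys U) {r : ℕ} {a : ℕ → G}
    (ha : ∀ t s, t < s → (a t)⁻¹ * a s ∉ U r) (F : Finset G) (g : G) :
    ∃ t ∈ Finset.range (F.card + 1), ¬ Cov F (U (r + 1)) (g * a t) := by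
  classical
  by_contra hcon
  push Not at hcon
  have h1 : ∀ t, ∃ e, t ∈ Finset.range (F.card + 1) → e ∈ F ∧ e⁻¹ * (g * a t) ∈ U (r + 1) := by
    intro t
    by_cases ht : t ∈ Finset.range (F.card + 1)
    · obtain ⟨e, he, he'⟩ := hcon t ht
      exact ⟨e, fun _ => ⟨he, he'⟩⟩
    · exact ⟨1, fun h => absurd h ht⟩
  choose e he using h1
  obtain ⟨t, ht, s, hs, hts, hes⟩ := Finset.exists_ne_map_eq_of_card_lt_of_maps_to
    (s := Finset.range (F.card + 1)) (t := F) (by simp) (f := e)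
    (fun t ht => (he t ht).1)
  have key : ∀ t s, t ∈ Finset.range (F.card + 1) → s ∈ Finset.range (F.card + 1) → t < s →
      e t = e s → False := by
    intro t s ht hs hlt hes
    apply ha t s hlt
    have h1 := hU.symm _ _ (he t ht).2
    have h2 := (he s hs).2
    have h3 := hU.mul r _ h1 _ h2
    rw [hes] at h3
    have : ((e s)⁻¹ * (g * a t))⁻¹ * ((e s)⁻¹ * (g * a s)) = (a t)⁻¹ * a s := by group
    rwa [this] at h3
  rcases lt_or_gt_of_ne hts with h | h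
  · exact key t s ht hs h hes
  · exact key s t hs ht h hes.symm

end sys

section fusion

/-- Nested sequences of small open sets. -/
theorem fusion {Y : Type v} [MetricSpace Y] [CompleteSpace Y] (P : Set Y → ℕ → Prop)
    (hP : ∀ W r, P W r → W.Nonempty)
    (hstep : ∀ W r, P W r → ∀ ε : ℝ, 0 < ε → ∃ W' r', r < r' ∧ P W' r' ∧ closure W' ⊆ W ∧
      ∀ x ∈ W', ∀ y ∈ W', dist x y ≤ ε)
    {W₀ : Set Y} {r₀ : ℕ} (h0 : P W₀ r₀) :
    ∃ y, ∀ m, ∃ W r, m ≤ r ∧ P W r ∧ y ∈ W := by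
  classical
  let S := {s : Set Y × ℕ // P s.1 s.2}
  have hstep' : ∀ (k : ℕ) (s : S), ∃ s' : S, s.1.2 < s'.1.2 ∧ closure s'.1.1 ⊆ s.1.1 ∧
      ∀ x ∈ s'.1.1, ∀ y ∈ s'.1.1, dist x y ≤ (1 / 2 : ℝ) ^ k := by
    intro k s
    obtain ⟨W', r', h1, h2, h3, h4⟩ := hstep s.1.1 s.1.2 s.2 ((1 / 2 : ℝ) ^ k) (by positivity)
    exact ⟨⟨(W', r'), h2⟩, h1, h3, h4⟩
  choose next hn1 hn2 hn3 using hstep'
  let s : ℕ → S := fun n => Nat.rec ⟨(W₀, r₀), h0⟩ (fun k t => next k t) n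
  have hs : ∀ n, s (n + 1) = next n (s n) := fun n => rfl
  have hr : ∀ n, n ≤ (s n).1.2 := by
    intro n
    induction n with
    | zero => exact Nat.zero_le _
    | succ n ih =>
      have := hn1 n (s n)
      rw [← hs] at this
      omega
  have hcl : ∀ n, closure (s (n + 1)).1.1 ⊆ (s n).1.1 := fun n => hn2 n (s n)
  have hanti0 : Antitone fun n => (s n).1.1 :=
    antitone_nat_of_succ_le fun n => subset_closure.trans (hcl n)
  have hanti : ∀ i j, i ≤ j → (s j).1.1 ⊆ (s i).1.1 := fun i j hij => hanti0 hij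
  have hd : ∀ n, ∀ x ∈ (s (n + 1)).1.1, ∀ y ∈ (s (n + 1)).1.1, dist x y ≤ (1 / 2 : ℝ) ^ n :=
    fun n => hn3 n (s n)
  have hne : ∀ n, ((s n).1.1).Nonempty := fun n => hP _ _ (s n).2
  choose y hy using hne
  have hc : CauchySeq fun n => y (n + 1) := by
    apply cauchySeq_of_le_tendsto_0 (fun n => (1 / 2 : ℝ) ^ n)
    · intro n m N hn hm
      exact hd N _ (hanti (N + 1) (n + 1) (by omega) (hy (n + 1)))
        _ (hanti (N + 1) (m + 1) (by omega) (hy (m + 1)))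
    · exact tendsto_pow_atTop_nhds_zero_of_lt_one (by norm_num) (by norm_num)
  obtain ⟨z, hz⟩ := cauchySeq_tendsto_of_complete hc
  refine ⟨z, fun m => ⟨(s m).1.1, (s m).1.2, hr m, (s m).2, ?_⟩⟩
  apply hcl m
  apply mem_closure_of_tendsto hz
  filter_upwards [eventually_ge_atTop m] with n hn
  exact hanti (m + 1) (n + 1) (by omega) (hy (n + 1))

theorem exists_small {X : Type v} [MetricSpace X] {O : Set X} {y : X} (hO : O ∈ 𝓝 y) {ε : ℝ}
    (hε : 0 < ε) : ∃ V, IsOpen V ∧ y ∈ V ∧ closure V ⊆ O ∧ ∀ a ∈ V, ∀ b ∈ V, dist a b ≤ ε := by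
  obtain ⟨δ, hδ, hδO⟩ := Metric.nhds_basis_closedBall.mem_iff.1 hO
  refine ⟨Metric.ball y (min δ (ε / 2)), Metric.isOpen_ball, Metric.mem_ball_self (by positivity),
    ?_, ?_⟩
  · exact (Metric.closure_ball_subset_closedBall.trans
      (Metric.closedBall_subset_closedBall (min_le_left _ _))).trans hδO
  · intro a ha b hb
    have h1 : dist a y < ε / 2 := lt_of_lt_of_le ha (min_le_right _ _)
    have h2 : dist b y < ε / 2 := lt_of_lt_of_le hb (min_le_right _ _)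
    have := dist_triangle_right a b y
    linarith

end fusion

end Pool.Agent.MP_b00c97_gt
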