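import Mathlib

/-!
Consistency example for MP_b00c97_gt: combinatorics of the construction.
-/

set_option autoImplicit false

open Set

namespace Pool.Agent.MP_b00c97_gt.Ex

/-- The position reached after `n` moves coded by `b`. -/
def pos (b : ℕ → ℕ) (n : ℕ) : ℕ := 1 + ∑ i ∈ Finset.range n, (b i + 1)

theorem pos_zero (b : ℕ → ℕ) : pos b 0 = 1 := by simp [pos]

theorem pos_succ (b : ℕ → ℕ) (n : ℕ) : pos b (n + 1) = pos b n + (b n + 1) := by
  simp [pos, Finset.sum_range_succ, add_assoc]

theorem pos_strictMono (b : ℕ → ℕ) : StrictMono (pos b) := by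
  apply strictMono_nat_of_lt_succ
  intro n
  rw [pos_succ]
  omega

theorem pos_pos (b : ℕ → ℕ) (n : ℕ) : 1 ≤ pos b n := by
  simp [pos]

open Classical in
/-- The height of the spike needed at coordinate `i`. -/
noncomputable def bump (b : ℕ → ℕ) (i : ℕ) : ℕ :=
  if h : ∃ j, pos b j = i + 1 then b h.choose + 1 else 0

theorem bump_of_pos {b : ℕ → ℕ} {i j : ℕ} (h : pos b j = i + 1) : bump b i = b j + 1 := by
  have hex : ∃ j, pos b j = i + 1 := ⟨j, h⟩
  unfold bump
  rw [dif_pos hex]
  have : hex.choose = j := (pos_strictMono b).injective (hex.choose_spec.trans h.symm)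
  rw [this]

theorem exists_pos_of_bump {b : ℕ → ℕ} {i : ℕ} (h : 0 < bump b i) :
    ∃ j, pos b j = i + 1 ∧ bump b i = b j + 1 := by
  by_cases hex : ∃ j, pos b j = i + 1
  · obtain ⟨j, hj⟩ := hex
    exact ⟨j, hj, bump_of_pos hj⟩
  · unfold bump at h
    rw [dif_neg hex] at h
    exact absurd h (lt_irrefl _)

/-- The element with forced spikes obtained from `z`. -/
noncomputable def forced (b : ℕ → ℕ) (z : ℕ → ℤ) (i : ℕ) : ℤ :=
  if (z i).natAbs < bump b i then (bump b i : ℤ) else z i

theorem forced_congr {b : ℕ → ℕ} {z z' : ℕ → ℤ} {i : ℕ} (h : z i = z' i) :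
    forced b z i = forced b z' i := by
  unfold forced
  rw [h]

theorem bump_le_forced (b : ℕ → ℕ) (z : ℕ → ℤ) (i : ℕ) : bump b i ≤ (forced b z i).natAbs := by
  unfold forced
  split_ifs with h
  · simp
  · omega

/-- The forced element beats the move number `n` coded by `b`. -/
theorem forced_large (b : ℕ → ℕ) (z : ℕ → ℤ) (n : ℕ) :
    ∃ i < pos b n, b n < (forced b z i).natAbs := by
  have h1 := pos_pos b n
  refine ⟨pos b n - 1, by omega, ?_⟩
  have h2 : bump b (pos b n - 1) = b n + 1 := bump_of_pos (by omega)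
  have h3 := bump_le_forced b z (pos b n - 1)
  omega

/-- All coordinates below `k` have absolute value at most `N`. -/
def Small (w : ℕ → ℤ) (k N : ℕ) : Prop := ∀ i < k, (w i).natAbs ≤ N

theorem Small.mono {w : ℕ → ℤ} {k k' N N' : ℕ} (h : Small w k N) (hk : k' ≤ k) (hN : N ≤ N') :
    Small w k' N' := fun i hi => (h i (by omega)).trans hN

/-- The copying value. -/
theorem forced_copy (b : ℕ → ℕ) (w : ℕ → ℤ) {c : ℤ} (hc : c ≠ 0) {z : ℕ → ℤ} {i : ℕ}
    (hz : z i = -(w i / c)) :
    (c * forced b z i + w i).natAbs ≤ c.natAbs + 2 * c.natAbs * bump b i := by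
  have h1 : w i = c * (w i / c) + w i % c := (Int.mul_ediv_add_emod (w i) c).symm
  have h2 : 0 ≤ w i % c := Int.emod_nonneg _ hc
  have h3 : w i % c < |c| := Int.emod_lt_abs _ hc
  have habs : |c| = (c.natAbs : ℤ) := Int.abs_eq_natAbs c
  set q := w i / c with hq
  set r := w i % c with hr
  unfold forced
  rw [hz]
  split_ifs with h
  · -- spike
    have h4 : (q.natAbs : ℤ) < bump b i := by
      have : (-q).natAbs = q.natAbs := Int.natAbs_neg q
      rw [this] at h
      exact_mod_cast h
    have h5 : |q| < bump b i := by rw [Int.abs_eq_natAbs]; exact h4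
    have h6 : |c * (bump b i : ℤ) + w i| ≤ (c.natAbs : ℤ) + 2 * c.natAbs * bump b i := by
      rw [h1]
      calc |c * (bump b i : ℤ) + (c * q + r)| ≤ |c * (bump b i : ℤ)| + |c * q + r| := abs_add_le _ _
        _ ≤ |c * (bump b i : ℤ)| + (|c * q| + |r|) := by
            gcongr
            exact abs_add_le _ _
        _ = |c| * bump b i + (|c| * |q| + r) := by
            rw [abs_mul, abs_mul, abs_of_nonneg h2, abs_of_nonneg (by positivity : (0 : ℤ) ≤ bump b i)]
        _ ≤ |c| * bump b i + (|c| * bump b i + |c|) := by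
            have : |c| * |q| ≤ |c| * bump b i := by
              apply mul_le_mul_of_nonneg_left h5.le (abs_nonneg c)
            linarith
        _ = (c.natAbs : ℤ) + 2 * c.natAbs * bump b i := by rw [habs]; ring
    have h7 : ((c * (bump b i : ℤ) + w i).natAbs : ℤ) ≤ (c.natAbs : ℤ) + 2 * c.natAbs * bump b i := by
      rw [← Int.abs_eq_natAbs]
      exact h6
    exact_mod_cast h7
  · have h6 : |c * -q + w i| ≤ (c.natAbs : ℤ) := by
      rw [h1]
      have : c * -q + (c * q + r) = r := by ring
      rw [this, abs_of_nonneg h2, ← habs]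
      exact h3.le
    have h7 : ((c * -q + w i).natAbs : ℤ) ≤ (c.natAbs : ℤ) := by
      rw [← Int.abs_eq_natAbs]
      exact h6
    have h8 : (c * -q + w i).natAbs ≤ c.natAbs := by exact_mod_cast h7
    exact h8.trans (Nat.le_add_right _ _)

/-- The growth condition for the pair `(k, g)`. -/
def Growth (k g : ℕ → ℕ) : Prop := (∀ m, 1 ≤ k m) ∧ ∀ m, (m + 1) * k (m + 1) ≤ g m

theorem Growth.le {k g : ℕ → ℕ} (h : Growth k g) (m : ℕ) : m + 1 ≤ g m := by
  have h1 := h.2 m
  have h2 := h.1 (m + 1)
  calc m + 1 = (m + 1) * 1 := by ring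
    _ ≤ (m + 1) * k (m + 1) := Nat.mul_le_mul_left _ h2
    _ ≤ g m := h1

/-- The key estimate: there is a level `m` at which all the spikes that are present are small with
respect to `g m`. -/
theorem exists_level (b : ℕ → ℕ) {k g : ℕ → ℕ} (hg : Growth k g) (E C : ℕ) :
    ∃ m, ∀ i < k m, E + C + 2 * C * bump b i ≤ g m := by
  classical
  set m₀ := E + 3 * C with hm₀
  by_cases h0 : ∀ i < k m₀, E + C + 2 * C * bump b i ≤ g m₀
  · exact ⟨m₀, h0⟩
  · push Not at h0
    obtain ⟨i₁, hi₁, hi₁'⟩ := h0
    obtain ⟨s, hs, hmax⟩ := Finset.exists_max_image (Finset.range (k m₀)) (bump b)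
      ⟨i₁, Finset.mem_range.2 hi₁⟩
    rw [Finset.mem_range] at hs
    have hT : g m₀ < E + C + 2 * C * bump b s := by
      have := hmax i₁ (Finset.mem_range.2 hi₁)
      have h2 : 2 * C * bump b i₁ ≤ 2 * C * bump b s := Nat.mul_le_mul_left _ this
      omega
    have hMpos : 0 < bump b s := by
      by_contra hcon
      have h3 : bump b s = 0 := by omega
      rw [h3, mul_zero] at hT
      have := hg.le m₀
      omega
    obtain ⟨j, hj, hj'⟩ := exists_pos_of_bump hMpos
    set T := E + C + 2 * C * bump b s with hTdef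
    have hex : ∃ m, m₀ < m ∧ T ≤ g m := by
      refine ⟨m₀ + T + 1, by omega, ?_⟩
      have := hg.le (m₀ + T + 1)
      omega
    obtain ⟨hm1, hm2⟩ := Nat.find_spec hex
    set m₁ := Nat.find hex with hm₁
    have hlt : g (m₁ - 1) < T := by
      by_cases hc : m₁ - 1 = m₀
      · rw [hc]; exact hT
      · by_contra hcon
        have := Nat.find_min hex (m := m₁ - 1) (by omega)
        apply this
        exact ⟨by omega, by omega⟩
    have hgrow := hg.2 (m₁ - 1)
    have he : m₁ - 1 + 1 = m₁ := by omega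
    rw [he] at hgrow
    have hk : k m₁ ≤ bump b s := by
      by_contra hcon
      have h4 : bump b s + 1 ≤ k m₁ := by omega
      have h5 : (E + 3 * C + 1) * (bump b s + 1) ≤ m₁ * k m₁ :=
        Nat.mul_le_mul (by omega) h4
      have h6 : T ≤ (E + 3 * C + 1) * (bump b s + 1) := by
        rw [hTdef]
        nlinarith [Nat.zero_le (E * bump b s), Nat.zero_le (C * bump b s)]
      omega
    refine ⟨m₁, fun i hi => ?_⟩
    have hle : bump b i ≤ bump b s := by
      by_cases hz : bump b i = 0
      · omega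
      · obtain ⟨j', hj1, hj2⟩ := exists_pos_of_bump (Nat.pos_of_ne_zero hz)
        by_cases hjj : j' ≤ j
        · have : pos b j' ≤ pos b j := (pos_strictMono b).monotone hjj
          exact hmax i (Finset.mem_range.2 (by omega))
        · exfalso
          have h7 : pos b (j + 1) ≤ pos b j' := (pos_strictMono b).monotone (by omega)
          rw [pos_succ] at h7
          omega
    have h8 : 2 * C * bump b i ≤ 2 * C * bump b s := Nat.mul_le_mul_left _ hle
    omega

end Pool.Agent.MP_b00c97_gt.Ex
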