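import Pool.Agent.MP_b00c97_gt.Example

/-!
Consistency example for MP_b00c97_gt: the transfinite recursion.
-/

set_option autoImplicit false

open Set Cardinal

namespace Pool.Agent.MP_b00c97_gt.Ex

/-- `cov(M) = c`: fewer than continuum many dense open subsets of the Baire space have a common
point. -/
def CovMeager : Prop :=
  ∀ 𝒟 : Set (Set (ℕ → ℕ)), #𝒟 < 𝔠 → (∀ D ∈ 𝒟, IsOpen D ∧ Dense D) → (⋂₀ 𝒟).Nonempty

theorem isOpen_of_cyl {D : Set (ℕ → ℕ)}
    (h : ∀ z ∈ D, ∃ L : ℕ, ∀ z' : ℕ → ℕ, (∀ i < L, z' i = z i) → z' ∈ D) : IsOpen D := by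
  rw [(PiNat.isTopologicalBasis_cylinders (fun _ : ℕ => ℕ)).isOpen_iff]
  intro z hz
  obtain ⟨L, hL⟩ := h z hz
  exact ⟨PiNat.cylinder z L, ⟨z, L, rfl⟩, PiNat.self_mem_cylinder z L, fun y hy => hL y hy⟩

theorem dense_of_cyl {D : Set (ℕ → ℕ)}
    (h : ∀ (z : ℕ → ℕ) (L : ℕ), ∃ z' ∈ D, ∀ i < L, z' i = z i) : Dense D := by
  rw [(PiNat.isTopologicalBasis_cylinders (fun _ : ℕ => ℕ)).dense_iff]
  rintro _ ⟨z, L, rfl⟩ -
  obtain ⟨z', hz', hz''⟩ := h z L
  exact ⟨z', hz'', hz'⟩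

theorem CovMeager.exists_mem (h : CovMeager) {ι : Type} (hι : #ι < 𝔠) (D : ι → Set (ℕ → ℕ))
    (ho : ∀ i, IsOpen (D i)) (hd : ∀ i, Dense (D i)) : ∃ z, ∀ i, z ∈ D i := by
  have h1 : #(Set.range D) < 𝔠 := lt_of_le_of_lt Cardinal.mk_range_le hι
  obtain ⟨z, hz⟩ := h (Set.range D) h1 (by
    rintro _ ⟨i, rfl⟩
    exact ⟨ho i, hd i⟩)
  exact ⟨z, fun i => hz _ ⟨i, rfl⟩⟩

/-- Decoding of naturals as integers. -/
def dec (n : ℕ) : ℤ := Equiv.intEquivNat.symm n

theorem dec_surj (q : ℤ) : dec (Equiv.intEquivNat q) = q := by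
  simp [dec]

/-- The set of codes `z` of elements which, added to `w` with the coefficient `c`, are good. -/
def Good (b k g : ℕ → ℕ) (c : ℤ) (w : ℕ → ℤ) : Set (ℕ → ℕ) :=
  {z | ∃ m, Small (fun i => c * forced b (fun i => dec (z i)) i + w i) (k m) (g m)}

theorem isOpen_good (b k g : ℕ → ℕ) (c : ℤ) (w : ℕ → ℤ) : IsOpen (Good b k g c w) := by
  apply isOpen_of_cyl
  rintro z ⟨m, hm⟩
  refine ⟨k m, fun z' hz' => ⟨m, fun i hi => ?_⟩⟩
  have h1 : forced b (fun i => dec (z' i)) i = forced b (fun i => dec (z i)) i :=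
    forced_congr (by simp only [hz' i hi])
  have := hm i hi
  simp only at this ⊢
  rw [h1]
  exact this

theorem dense_good (b : ℕ → ℕ) {k g : ℕ → ℕ} (hg : Growth k g) {c : ℤ} (hc : c ≠ 0)
    (w : ℕ → ℤ) : Dense (Good b k g c w) := by
  apply dense_of_cyl
  intro z L
  let z' : ℕ → ℕ := fun i => if i < L then z i else Equiv.intEquivNat (-(w i / c))
  let E : ℕ := ∑ i ∈ Finset.range L, (c * forced b (fun i => dec (z i)) i + w i).natAbs
  obtain ⟨m, hm⟩ := exists_level b hg E c.natAbs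
  refine ⟨z', ⟨m, fun i hi => ?_⟩, fun i hi => by simp [z', hi]⟩
  have hmi := hm i hi
  simp only
  by_cases hL : i < L
  · have h1 : forced b (fun i => dec (z' i)) i = forced b (fun i => dec (z i)) i :=
      forced_congr (by simp [z', hL])
    rw [h1]
    have h2 : (c * forced b (fun i => dec (z i)) i + w i).natAbs ≤ E :=
      Finset.single_le_sum (f := fun i => (c * forced b (fun i => dec (z i)) i + w i).natAbs)
        (fun _ _ => Nat.zero_le _) (Finset.mem_range.2 hL)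
    omega
  · have h1 : dec (z' i) = -(w i / c) := by
      simp [z', hL, dec_surj]
    have h2 := forced_copy b w hc (z := fun i => dec (z' i)) (i := i) h1
    omega

/-- Linear combinations. -/
def comb {ι : Type} (x : ι → ℕ → ℤ) (l : List (ι × ℤ)) (i : ℕ) : ℤ :=
  (l.map (fun q => q.2 * x q.1 i)).sum

@[simp] theorem comb_nil {ι : Type} (x : ι → ℕ → ℤ) (i : ℕ) : comb x [] i = 0 := rfl

@[simp] theorem comb_cons {ι : Type} (x : ι → ℕ → ℤ) (q : ι × ℤ) (l : List (ι × ℤ)) (i : ℕ) :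
    comb x (q :: l) i = q.2 * x q.1 i + comb x l i := by
  simp [comb]

theorem comb_append {ι : Type} (x : ι → ℕ → ℤ) (l l' : List (ι × ℤ)) (i : ℕ) :
    comb x (l ++ l') i = comb x l i + comb x l' i := by
  simp [comb]

theorem comb_neg {ι : Type} (x : ι → ℕ → ℤ) (l : List (ι × ℤ)) (i : ℕ) :
    comb x (l.map (fun q => (q.1, -q.2))) i = - comb x l i := by
  induction l with
  | nil => simp
  | cons q l ih =>
    simp only [List.map_cons, comb_cons, ih]
    ring

/-- Making an arbitrary pair satisfy the growth condition. -/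
def kk (b : ℕ → ℕ) (m : ℕ) : ℕ := 1 + b m

def gg (b g : ℕ → ℕ) (m : ℕ) : ℕ := g m + (m + 1) * kk b (m + 1)

theorem growth_kk_gg (b g : ℕ → ℕ) : Growth (kk b) (gg b g) :=
  ⟨fun m => by simp [kk], fun m => by simp [gg]⟩

theorem exists_bound (h : CovMeager) {ι : Type} (hι : #ι < 𝔠) (w : ι → ℕ → ℤ) (k : ℕ → ℕ) :
    ∃ g : ℕ → ℕ, ∀ i, ∃ m, Small (w i) (k m) (g m) := by
  obtain ⟨g, hg⟩ := h.exists_mem hι (fun i => {g | ∃ m, Small (w i) (k m) (g m)}) (by
    intro i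
    apply isOpen_of_cyl
    rintro g ⟨m, hm⟩
    refine ⟨m + 1, fun g' hg' => ⟨m, ?_⟩⟩
    rw [hg' m (Nat.lt_succ_self m)]
    exact hm) (by
    intro i
    apply dense_of_cyl
    intro g L
    refine ⟨fun m => if m < L then g m else ∑ j ∈ Finset.range (k m), (w i j).natAbs,
      ⟨L, fun j hj => ?_⟩, fun m hm => by simp [hm]⟩
    simp only [lt_self_iff_false, if_false]
    exact Finset.single_le_sum (f := fun j => (w i j).natAbs) (fun _ _ => Nat.zero_le _)
      (Finset.mem_range.2 hj))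
  exact ⟨g, hg⟩

/-- One step of the recursion: `b` is the code of the current play and of the current sequence of
neighbourhoods; `x j` are the elements constructed before, `(kb j, gb j)` the promises made
before. -/
theorem exists_step (h : CovMeager) {ι : Type} (hι : #ι < 𝔠) (b : ℕ → ℕ) (x : ι → ℕ → ℤ)
    (e g' : ι → ℕ → ℕ) :
    ∃ (y : ℕ → ℤ) (g : ℕ → ℕ), (∀ n, ∃ i < pos b n, b n < (y i).natAbs) ∧
      (∀ l : List (ι × ℤ), ∃ m, Small (comb x l) (kk b m) (gg b g m)) ∧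
      (∀ (l : List (ι × ℤ)) (c : ℤ), c ≠ 0 →
        ∃ m, Small (fun i => c * y i + comb x l i) (kk b m) (gg b g m)) ∧
      (∀ (l : List (ι × ℤ)) (c : ℤ), c ≠ 0 → ∀ j : ι,
        ∃ m, Small (fun i => c * y i + comb x l i) (kk (e j) m) (gg (e j) (g' j) m)) := by
  have hc0 : ℵ₀ < 𝔠 := Cardinal.aleph0_lt_continuum
  have hιZ : #(ι × ℤ) < 𝔠 := by
    rw [Cardinal.mk_prod, Cardinal.lift_id, Cardinal.lift_id]
    apply Cardinal.mul_lt_of_lt hc0.le hι
    rw [Cardinal.mk_int]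
    exact hc0
  have hl : #(List (ι × ℤ)) < 𝔠 := by
    refine lt_of_le_of_lt (Cardinal.mk_list_le_max _) ?_
    exact max_lt hc0 hιZ
  obtain ⟨g, hg⟩ := exists_bound h hl (fun l => comb x l) (kk b)
  have hι' : #(Option ι) < 𝔠 := by
    rw [Cardinal.mk_option]
    exact Cardinal.add_lt_of_lt hc0.le hι (lt_of_lt_of_le Cardinal.one_lt_aleph0 hc0.le)
  have hbig : #((List (ι × ℤ) × {c : ℤ // c ≠ 0}) × Option ι) < 𝔠 := by
    rw [Cardinal.mk_prod, Cardinal.lift_id, Cardinal.lift_id, Cardinal.mk_prod,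
      Cardinal.lift_id, Cardinal.lift_id]
    apply Cardinal.mul_lt_of_lt hc0.le _ hι'
    apply Cardinal.mul_lt_of_lt hc0.le hl
    refine lt_of_le_of_lt (Cardinal.mk_subtype_le _) ?_
    rw [Cardinal.mk_int]
    exact hc0
  let K : Option ι → ℕ → ℕ := fun o => o.elim (kk b) (fun j => kk (e j))
  let Γ : Option ι → ℕ → ℕ := fun o => o.elim (gg b g) (fun j => gg (e j) (g' j))
  have hgr : ∀ o, Growth (K o) (Γ o) := by
    intro o
    cases o with
    | none => exact growth_kk_gg _ _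
    | some j => exact growth_kk_gg _ _
  obtain ⟨z, hz⟩ := h.exists_mem hbig
    (fun q => Good b (K q.2) (Γ q.2) q.1.2.1 (comb x q.1.1))
    (fun q => isOpen_good _ _ _ _ _) (fun q => dense_good _ (hgr _) q.1.2.2 _)
  refine ⟨forced b (fun i => dec (z i)), g, forced_large b _, ?_, ?_, ?_⟩
  · intro l
    obtain ⟨m, hm⟩ := hg l
    exact ⟨m, hm.mono le_rfl (Nat.le_add_right _ _)⟩
  · intro l c hc
    exact hz ((l, ⟨c, hc⟩), none)
  · intro l c hc j
    exact hz ((l, ⟨c, hc⟩), some j)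

/-- Transfinite recursion. -/
theorem exists_rec {I : Type} [LT I] [WellFoundedLT I] {Y : Type}
    (S : ∀ a : I, (∀ b : I, b < a → Y) → Set Y) (hS : ∀ a p, (S a p).Nonempty) :
    ∃ Φ : I → Y, ∀ a, Φ a ∈ S a (fun b _ => Φ b) := by
  classical
  refine ⟨WellFounded.fix (wellFounded_lt (α := I)) (fun a p => (hS a p).some), fun a => ?_⟩
  rw [WellFounded.fix_eq]
  exact (hS a _).some_mem

end Pool.Agent.MP_b00c97_gt.Ex
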